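import Pool.Agent.Helper39.HR.Stmts

/-!
# Hereditary ratio 1/3: module 9 (ITER)

`J` splitting steps give `2 ^ J` masses of sum one and level `((1 - c) / 2) ^ J * d`.
-/

namespace Pool.Agent.Helper37.HR

open Finset Pool.Agent.Helper39.HR
open scoped Classical

noncomputable section

theorem st_iter (hS : ST_SPLIT) : ST_ITER := by
  obtain ⟨c, C, hc0, hc1, hC, hS⟩ := hS
  refine ⟨c, C, hc0, hc1, hC, ?_⟩
  intro V _ G d J hH hdeg hd
  have hth0 : 0 < (1 - c) / 2 := by linarith
  have hth1 : (1 - c) / 2 < 1 := by linarith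
  have had : ∀ x y, 0 ≤ ad G x y := fun x y => by
    unfold ad
    split_ifs <;> norm_num
  induction J with
  | zero =>
    intro _
    refine ⟨fun _ _ => 1, fun _ _ => zero_le_one, fun x => ?_, fun i => ?_⟩
    · rw [Finset.sum_const, Finset.card_univ, Fintype.card_fin]
      simp
    · refine ⟨fun _ => 1, fun _ => zero_lt_one, fun x => ?_⟩
      have h1 : ∑ y, ad G x y * ((1 : ℝ) * 1) = ∑ y, ad G x y :=
        Finset.sum_congr rfl fun y _ => by ring
      show ∑ y, ad G x y * ((1 : ℝ) * 1) ≤ ((1 - c) / 2) ^ 0 * d * 1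
      rw [h1, pow_zero, one_mul, mul_one]
      exact hdeg x
  | succ J ih =>
    intro hJ
    set θ : ℝ := (1 - c) / 2 with hθ
    have hr0 : 0 < θ ^ J * d := mul_pos (pow_pos hth0 J) (by linarith)
    have hle : θ ^ (J + 1) * d ≤ θ ^ J * d := by
      have h1 : θ ^ (J + 1) ≤ θ ^ J := pow_le_pow_of_le_one hth0.le hth1.le (Nat.le_succ J)
      exact mul_le_mul_of_nonneg_right h1 (by linarith)
    have hr1 : 0 < θ ^ (J + 1) * d := mul_pos (pow_pos hth0 _) (by linarith)
    have hJ' : C * d ^ 4 ≤ (θ ^ J * d) ^ 5 := hJ.trans (pow_le_pow_left₀ hr1.le hle 5)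
    obtain ⟨f, hf0, hf1, hfS⟩ := ih hJ'
    have hrd : θ ^ J * d ≤ d := by
      have h1 : θ ^ J ≤ 1 := pow_le_one₀ hth0.le hth1.le
      nlinarith
    have hfle : ∀ i x, f i x ≤ 1 := fun i x => by
      rw [← hf1 x]
      exact Finset.single_le_sum (f := fun i => f i x) (fun i _ => hf0 i x) (mem_univ i)
    have hstep : ∀ i, ∃ g : V → ℝ, (∀ x, 0 ≤ g x) ∧ (∀ x, g x ≤ 1) ∧
        Sup G (fun x => f i x * g x) (θ * (θ ^ J * d)) ∧
        Sup G (fun x => f i x * (1 - g x)) (θ * (θ ^ J * d)) := fun i =>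
      hS V G d (θ ^ J * d) (f i) hH hdeg hd (hf0 i) (hfle i) (hfS i) hr0 hrd hJ'
    choose g hg0 hg1 hgA hgB using hstep
    -- the new masses, indexed by `Fin (2 ^ J) × Bool`
    set F : Fin (2 ^ J) × Bool → V → ℝ := fun p x =>
      if p.2 then f p.1 x * g p.1 x else f p.1 x * (1 - g p.1 x) with hF
    have hcard : Fintype.card (Fin (2 ^ J) × Bool) = 2 ^ (J + 1) := by
      rw [Fintype.card_prod, Fintype.card_fin, Fintype.card_bool, pow_succ]
    let e : Fin (2 ^ (J + 1)) ≃ Fin (2 ^ J) × Bool :=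
      (Fintype.equivFinOfCardEq hcard).symm
    have hrw : θ ^ (J + 1) * d = θ * (θ ^ J * d) := by rw [pow_succ]; ring
    refine ⟨fun i => F (e i), fun i x => ?_, fun x => ?_, fun i => ?_⟩
    · show 0 ≤ if (e i).2 then f (e i).1 x * g (e i).1 x else f (e i).1 x * (1 - g (e i).1 x)
      split_ifs
      · exact mul_nonneg (hf0 _ x) (hg0 _ x)
      · exact mul_nonneg (hf0 _ x) (by linarith [hg1 (e i).1 x])
    · have h1 : ∑ i, F (e i) x = ∑ p, F p x := Equiv.sum_comp e (fun p => F p x)
      rw [h1, Fintype.sum_prod_type, ← hf1 x]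
      refine Finset.sum_congr rfl fun i _ => ?_
      rw [Fintype.sum_bool]
      show f i x * g i x + f i x * (1 - g i x) = f i x
      ring
    · rw [hrw]
      rcases h : (e i).2 with _ | _
      · have h2 : F (e i) = fun x => f (e i).1 x * (1 - g (e i).1 x) := by
          funext x
          show (if (e i).2 then f (e i).1 x * g (e i).1 x else f (e i).1 x * (1 - g (e i).1 x)) = _
          rw [h]
          rfl
        show Sup G (F (e i)) _
        rw [h2]
        exact hgB (e i).1
      · have h2 : F (e i) = fun x => f (e i).1 x * g (e i).1 x := by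
          funext x
          show (if (e i).2 then f (e i).1 x * g (e i).1 x else f (e i).1 x * (1 - g (e i).1 x)) = _
          rw [h]
          rfl
        show Sup G (F (e i)) _
        rw [h2]
        exact hgA (e i).1

end

end Pool.Agent.Helper37.HR
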