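import Pool.Agent.Helper39.HR.Stmts

/-!
# Hereditary ratio 1/3: modules 6 (RES) and 7 (SUP)

A nonnegative symmetric matrix `A` with `⟨w, A w⟩ ≤ s ‖w‖²` and `s < t` has a positive
supersolution of level `t`: solve `(t - A) a = 1`.
-/

namespace Pool.Agent.Helper37.HR

open Finset Pool.Agent.Helper39.HR
open scoped Classical

noncomputable section

/-- the linear map `t - A` -/
def tA {V : Type} [Fintype V] (A : V → V → ℝ) (t : ℝ) : (V → ℝ) →ₗ[ℝ] (V → ℝ) where
  toFun w x := t * w x - ∑ y, A x y * w y
  map_add' u v := by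
    funext x
    have h : ∑ y, A x y * (u + v) y = ∑ y, A x y * u y + ∑ y, A x y * v y := by
      rw [← Finset.sum_add_distrib]
      exact Finset.sum_congr rfl fun y _ => by rw [Pi.add_apply]; ring
    show t * (u + v) x - ∑ y, A x y * (u + v) y
      = (t * u x - ∑ y, A x y * u y) + (t * v x - ∑ y, A x y * v y)
    rw [h, Pi.add_apply]
    ring
  map_smul' c u := by
    funext x
    have h : ∑ y, A x y * (c • u) y = c * ∑ y, A x y * u y := by
      rw [Finset.mul_sum]
      exact Finset.sum_congr rfl fun y _ => by rw [Pi.smul_apply, smul_eq_mul]; ring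
    show t * (c • u) x - ∑ y, A x y * (c • u) y = c * (t * u x - ∑ y, A x y * u y)
    rw [h, Pi.smul_apply, smul_eq_mul]
    ring

theorem tA_apply {V : Type} [Fintype V] (A : V → V → ℝ) (t : ℝ) (w : V → ℝ) (x : V) :
    tA A t w x = t * w x - ∑ y, A x y * w y := rfl

theorem tA_form {V : Type} [Fintype V] (A : V → V → ℝ) (t : ℝ) (u w : V → ℝ) :
    ∑ x, u x * tA A t w x = t * ∑ x, u x * w x - ∑ x, ∑ y, A x y * (u x * w y) := by
  rw [Finset.mul_sum, ← Finset.sum_sub_distrib]
  refine Finset.sum_congr rfl fun x _ => ?_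
  rw [tA_apply, mul_sub, Finset.mul_sum]
  congr 1
  · ring
  · exact Finset.sum_congr rfl fun y _ => by ring

theorem st_res : ST_RES := by
  intro V _ A s t hsym hA hst hq
  rcases isEmpty_or_nonempty V with hV | hV
  · exact ⟨fun _ => 1, fun x => (hV.false x).elim, fun x => (hV.false x).elim⟩
  have hs : 0 ≤ s := by
    obtain ⟨x₀⟩ := hV
    have h := hq (fun _ => 1)
    have h1 : 0 ≤ ∑ x, ∑ y, A x y * ((fun _ : V => (1 : ℝ)) x * (fun _ : V => (1 : ℝ)) y) :=
      Finset.sum_nonneg fun x _ => Finset.sum_nonneg fun y _ => by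
        have := hA x y
        simpa using this
    have h2 : 0 < ∑ x, (fun _ : V => (1 : ℝ)) x ^ 2 :=
      Finset.sum_pos (fun x _ => by norm_num) ⟨x₀, mem_univ _⟩
    by_contra hc
    have h3 : s * ∑ x, (fun _ : V => (1 : ℝ)) x ^ 2 < 0 := mul_neg_of_neg_of_pos (by linarith) h2
    linarith
  have hinj : Function.Injective (tA A t) := by
    refine (injective_iff_map_eq_zero _).2 fun w hw => ?_
    have h1 := tA_form A t w w
    rw [hw] at h1
    have h2 : ∑ x, w x * (0 : V → ℝ) x = 0 := Finset.sum_eq_zero fun x _ => by simp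
    rw [h2] at h1
    have h3 := hq w
    have h4 : ∑ x, w x * w x = ∑ x, w x ^ 2 := Finset.sum_congr rfl fun x _ => by ring
    rw [h4] at h1
    have h5 : 0 ≤ ∑ x, w x ^ 2 := Finset.sum_nonneg fun x _ => sq_nonneg _
    have h6 : ∑ x, w x ^ 2 = 0 := by nlinarith
    funext x
    have h7 := (Finset.sum_eq_zero_iff_of_nonneg (fun x _ => sq_nonneg (w x))).1 h6 x (mem_univ _)
    simpa using h7
  obtain ⟨a, ha⟩ := (LinearMap.injective_iff_surjective.1 hinj) (fun _ => 1)
  have hax : ∀ x, t * a x - ∑ y, A x y * a y = 1 := fun x => by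
    rw [← tA_apply, ha]
  have ha0 : ∀ x, 0 ≤ a x := by
    -- the negative part vanishes
    have h1 := tA_form A t (fun x => max (-a x) 0) a
    rw [ha] at h1
    have h2 : 0 ≤ ∑ x, max (-a x) 0 * (1 : ℝ) :=
      Finset.sum_nonneg fun x _ => by
        have := le_max_right (-a x) 0
        linarith
    have h3 : ∑ x, max (-a x) 0 * a x = - ∑ x, (max (-a x) 0) ^ 2 := by
      rw [← Finset.sum_neg_distrib]
      refine Finset.sum_congr rfl fun x _ => ?_
      rcases le_total 0 (a x) with h | h
      · rw [max_eq_right (by linarith)]; ring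
      · rw [max_eq_left (by linarith)]; ring
    have h4 : ∑ x, ∑ y, A x y * (max (-a x) 0 * max (-a y) 0)
        ≤ s * ∑ x, (max (-a x) 0) ^ 2 := hq (fun x => max (-a x) 0)
    have h5 : - ∑ x, ∑ y, A x y * (max (-a x) 0 * a y)
        ≤ ∑ x, ∑ y, A x y * (max (-a x) 0 * max (-a y) 0) := by
      rw [← Finset.sum_neg_distrib]
      refine Finset.sum_le_sum fun x _ => ?_
      rw [← Finset.sum_neg_distrib]
      refine Finset.sum_le_sum fun y _ => ?_
      have h6 := hA x y
      have h7 := le_max_right (-a x) 0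
      have h8 := le_max_left (-a y) 0
      have h9 : max (-a x) 0 * (-a y) ≤ max (-a x) 0 * max (-a y) 0 :=
        mul_le_mul_of_nonneg_left h8 h7
      nlinarith [mul_le_mul_of_nonneg_left h9 h6]
    have h6 : 0 ≤ ∑ x, (max (-a x) 0) ^ 2 := Finset.sum_nonneg fun x _ => sq_nonneg _
    have h7 : ∑ x, (fun x => max (-a x) 0) x * a x = - ∑ x, (max (-a x) 0) ^ 2 := h3
    have h8 : 0 ≤ t * -(∑ x, (max (-a x) 0) ^ 2) - ∑ x, ∑ y, A x y * (max (-a x) 0 * a y) := by
      have h9 : ∑ x, max (-a x) 0 * (1 : ℝ)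
          = t * ∑ x, max (-a x) 0 * a x - ∑ x, ∑ y, A x y * (max (-a x) 0 * a y) := h1
      rw [← h3, ← h9]
      exact h2
    have h9 : ∑ x, (max (-a x) 0) ^ 2 = 0 := by nlinarith
    intro x
    have h10 := (Finset.sum_eq_zero_iff_of_nonneg
      (fun x _ => sq_nonneg (max (-a x) 0))).1 h9 x (mem_univ _)
    have h11 : max (-a x) 0 = 0 := by
      simpa using h10
    have h12 := le_max_left (-a x) 0
    linarith
  refine ⟨a, fun x => ?_, fun x => by linarith [hax x]⟩
  have h1 : 0 ≤ ∑ y, A x y * a y :=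
    Finset.sum_nonneg fun y _ => mul_nonneg (hA x y) (ha0 y)
  have h2 := hax x
  have h3 : 0 < t * a x := by linarith
  exact (mul_pos_iff.1 h3).elim (fun h => h.2) (fun h => absurd h.1 (by linarith))

theorem st_sup : ST_SUP := by
  intro V _ G f s t hf ht hst hq
  set s' : ℝ := max s 0 with hs'
  have hs0 : 0 ≤ s' := le_max_right _ _
  have hst' : s' < t := max_lt hst ht
  set u : ℝ := (s' + t) / 2 with hu
  have hsu : s' < u := by rw [hu]; linarith
  have hut : u < t := by rw [hu]; linarith
  set r : V → ℝ := fun x => Real.sqrt (f x) with hr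
  have hr0 : ∀ x, 0 ≤ r x := fun x => Real.sqrt_nonneg _
  have hrr : ∀ x, r x * r x = f x := fun x => Real.mul_self_sqrt (hf x)
  have had : ∀ x y, 0 ≤ ad G x y := fun x y => by
    unfold ad
    split_ifs <;> norm_num
  have hads : ∀ x y, ad G x y = ad G y x := fun x y => by
    unfold ad
    by_cases h : G.Adj x y
    · rw [if_pos h, if_pos h.symm]
    · rw [if_neg h, if_neg fun h' => h h'.symm]
  obtain ⟨a, ha, hA⟩ := st_res V (fun x y => ad G x y * (r x * r y)) s' u
    (fun x y => by
      show ad G x y * (r x * r y) = ad G y x * (r y * r x)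
      rw [hads x y, mul_comm (r x) (r y)])
    (fun x y => mul_nonneg (had x y) (mul_nonneg (hr0 x) (hr0 y))) hsu
    (by
      intro w
      set w' : V → ℝ := fun x => if f x = 0 then 0 else |w x| with hw'
      have h1 := hq w' (fun x => by
        show 0 ≤ if f x = 0 then (0 : ℝ) else |w x|
        split_ifs
        · exact le_refl _
        · exact abs_nonneg _)
        (fun x hx => by
          show (if f x = 0 then (0 : ℝ) else |w x|) = 0
          rw [if_pos hx])
      have h2 : ∀ x, r x * w' x = r x * |w x| := fun x => by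
        show r x * (if f x = 0 then (0 : ℝ) else |w x|) = r x * |w x|
        split_ifs with h
        · have : r x = 0 := by
            show Real.sqrt (f x) = 0
            rw [h, Real.sqrt_zero]
          rw [this]; ring
        · rfl
      have h3 : ∑ x, ∑ y, ad G x y * (r x * r y) * (w x * w y)
          ≤ ∑ x, ∑ y, ad G x y * ((r x * w' x) * (r y * w' y)) := by
        refine Finset.sum_le_sum fun x _ => Finset.sum_le_sum fun y _ => ?_
        rw [h2 x, h2 y]
        have h4 : w x * w y ≤ |w x| * |w y| := by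
          rw [← abs_mul]; exact le_abs_self _
        have h5 : 0 ≤ ad G x y * (r x * r y) :=
          mul_nonneg (had x y) (mul_nonneg (hr0 x) (hr0 y))
        calc ad G x y * (r x * r y) * (w x * w y)
            ≤ ad G x y * (r x * r y) * (|w x| * |w y|) := mul_le_mul_of_nonneg_left h4 h5
          _ = ad G x y * ((r x * |w x|) * (r y * |w y|)) := by ring
      have h4 : s * ∑ x, w' x ^ 2 ≤ s' * ∑ x, w x ^ 2 := by
        have h5 : ∑ x, w' x ^ 2 ≤ ∑ x, w x ^ 2 := by
          refine Finset.sum_le_sum fun x _ => ?_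
          show (if f x = 0 then (0 : ℝ) else |w x|) ^ 2 ≤ w x ^ 2
          split_ifs
          · have := sq_nonneg (w x)
            linarith
          · rw [sq_abs]
        have h6 : 0 ≤ ∑ x, w' x ^ 2 := Finset.sum_nonneg fun x _ => sq_nonneg _
        calc s * ∑ x, w' x ^ 2 ≤ s' * ∑ x, w' x ^ 2 :=
              mul_le_mul_of_nonneg_right (le_max_left _ _) h6
          _ ≤ s' * ∑ x, w x ^ 2 := mul_le_mul_of_nonneg_left h5 hs0
      exact h3.trans (h1.trans h4))
  -- the supersolution
  set T : ℝ := 1 + ∑ y, r y / a y with hT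
  have hT1 : ∀ y, r y / a y ≤ T := fun y => by
    have h1 : r y / a y ≤ ∑ y, r y / a y :=
      Finset.single_le_sum (f := fun y => r y / a y)
        (fun y _ => div_nonneg (hr0 y) (ha y).le) (mem_univ y)
    rw [hT]; linarith
  have hT0 : 0 < T := by
    have h1 : 0 ≤ ∑ y, r y / a y :=
      Finset.sum_nonneg fun y _ => div_nonneg (hr0 y) (ha y).le
    rw [hT]; linarith
  set e : ℝ := (t - u) / T with he
  have he0 : 0 < e := div_pos (by linarith) hT0
  have heT : e * T = t - u := div_mul_cancel₀ _ hT0.ne'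
  refine ⟨fun x => (∑ y, ad G x y * (r y * a y)) + e, fun x => ?_, fun x => ?_⟩
  · have : 0 ≤ ∑ y, ad G x y * (r y * a y) :=
      Finset.sum_nonneg fun y _ => mul_nonneg (had x y) (mul_nonneg (hr0 y) (ha y).le)
    show 0 < (∑ y, ad G x y * (r y * a y)) + e
    linarith
  · show ∑ y, ad G x y * (f y * ((∑ z, ad G y z * (r z * a z)) + e))
      ≤ t * ((∑ y, ad G x y * (r y * a y)) + e)
    have h1 : ∀ y, f y * ((∑ z, ad G y z * (r z * a z)) + e) ≤ t * (r y * a y) := by
      intro y
      have h2 : ∑ z, ad G y z * (r y * r z) * a z = r y * ∑ z, ad G y z * (r z * a z) := by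
        rw [Finset.mul_sum]
        exact Finset.sum_congr rfl fun z _ => by ring
      have h3 : r y * ∑ z, ad G y z * (r z * a z) ≤ u * a y := by
        rw [← h2]; exact hA y
      have h4 : r y * e ≤ (t - u) * a y := by
        have h5 := hT1 y
        rw [div_le_iff₀ (ha y)] at h5
        calc r y * e ≤ T * a y * e := mul_le_mul_of_nonneg_right h5 he0.le
          _ = e * T * a y := by ring
          _ = (t - u) * a y := by rw [heT]
      have h5 : r y * ((∑ z, ad G y z * (r z * a z)) + e) ≤ t * a y := by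
        rw [mul_add]; linarith
      calc f y * ((∑ z, ad G y z * (r z * a z)) + e)
          = r y * (r y * ((∑ z, ad G y z * (r z * a z)) + e)) := by rw [← hrr y]; ring
        _ ≤ r y * (t * a y) := mul_le_mul_of_nonneg_left h5 (hr0 y)
        _ = t * (r y * a y) := by ring
    calc ∑ y, ad G x y * (f y * ((∑ z, ad G y z * (r z * a z)) + e))
        ≤ ∑ y, ad G x y * (t * (r y * a y)) :=
          Finset.sum_le_sum fun y _ => mul_le_mul_of_nonneg_left (h1 y) (had x y)
      _ = t * ∑ y, ad G x y * (r y * a y) := by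
          rw [Finset.mul_sum]
          exact Finset.sum_congr rfl fun y _ => by ring
      _ ≤ t * ((∑ y, ad G x y * (r y * a y)) + e) :=
          mul_le_mul_of_nonneg_left (by linarith) ht.le

end

end Pool.Agent.Helper37.HR
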